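import Pool.Agent.W719.AX.Phs

/-!
# Project AX, part AX-FINX: the final expansion
-/

set_option autoImplicit false

namespace Pool.Agent.W962.AX

open Finset Filter Topology Metric
open Pool.Agent.W711.HT hiding XX
open Pool.Agent.W719.AR
open Pool.Agent.W719.AX
open scoped Real

/-- the expansion of `exp (c / N)` -/
theorem ux_exp (c : ℂ) : UX (fun N (_ : Unit) => Complex.exp (c / N))
    (fun k _ => c ^ k / (k.factorial : ℂ)) Set.univ := by
  intro K
  refine ⟨‖c‖ ^ K * Real.exp ‖c‖, ?_⟩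
  filter_upwards [eventually_ge_atTop 1] with N hN p _
  have hN0 : (0 : ℝ) < N := by exact_mod_cast hN
  have hN1 : (1 : ℝ) ≤ N := by exact_mod_cast hN
  have h1 := Complex.norm_exp_sub_sum_le_norm_mul_exp (c / (N : ℂ)) K
  have e1 : ∑ k ∈ range K, c ^ k / (k.factorial : ℂ) / (N : ℂ) ^ k
      = ∑ m ∈ range K, (c / (N : ℂ)) ^ m / (m.factorial : ℂ) := by
    refine Finset.sum_congr rfl fun k _ => ?_
    rw [div_pow, div_right_comm]
  rw [e1]
  refine h1.trans ?_
  have e2 : ‖c / (N : ℂ)‖ = ‖c‖ / N := by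
    rw [norm_div, Complex.norm_natCast]
  rw [e2, div_pow]
  have e3 : ‖c‖ / N ≤ ‖c‖ := div_le_self (norm_nonneg _) hN1
  calc ‖c‖ ^ K / (N : ℝ) ^ K * Real.exp (‖c‖ / N)
      ≤ ‖c‖ ^ K / (N : ℝ) ^ K * Real.exp ‖c‖ := by
        gcongr
    _ = ‖c‖ ^ K * Real.exp ‖c‖ / (N : ℝ) ^ K := by ring

theorem kp_zpow (N : ℕ) (w : ℤ) (hN : 0 < N) : kp N ^ w = (-Complex.I) ^ w *
    Complex.exp (N * (-(Complex.I * π * w / 4))) * Complex.exp ((3 * π * Complex.I * w / 4) / N) := by
  have hN0 : (N : ℂ) ≠ 0 := by exact_mod_cast hN.ne'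
  unfold kp
  rw [mul_zpow, ← Complex.exp_int_mul, mul_assoc ((-Complex.I) ^ w), ← Complex.exp_add]
  congr 2
  field_simp

theorem finx : S_UXMUL → S_FINTX → S_RTX → S_FINX := by
  intro hmul hfin hrtx D hD
  obtain ⟨M, hM⟩ := hfin D hD
  refine ⟨M, fun t ht hnc => ?_⟩
  obtain ⟨V, v', y', hV, hv', hy0, hux⟩ := hM t ht hnc
  set w : ℤ := ws t with hw
  set n : ℕ := ne t with hn
  set c : ℂ := 3 * π * Complex.I * w / 4 with hc
  set K0 : ℂ := (Complex.I / (2 * π)) ^ (n + 1) * (-1) ^ n * (-Complex.I) ^ w with hK0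
  have hπ : (π : ℂ) ≠ 0 := by exact_mod_cast Real.pi_ne_zero
  have hK0n : K0 ≠ 0 := by
    rw [hK0]
    refine mul_ne_zero (mul_ne_zero (pow_ne_zero _ ?_) (pow_ne_zero _ (by norm_num)))
      (zpow_ne_zero _ (neg_ne_zero.2 Complex.I_ne_zero))
    exact div_ne_zero Complex.I_ne_zero (mul_ne_zero two_ne_zero hπ)
  have hprod := hmul Unit _ _ _ _ _ hux (ux_exp c)
  refine ⟨V, v' + Complex.I * π - Complex.I * π * w / 4,
    fun k => K0 * cv (fun k (_ : Unit) => y' k) (fun k _ => c ^ k / (k.factorial : ℂ)) k (),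
    hV, ?_, ?_, ?_⟩
  · have e1 : (v' + Complex.I * π - Complex.I * π * w / 4).re = v'.re := by
      have a1 : (Complex.I * π).re = 0 := by simp
      have a2 : (Complex.I * π * w / 4).re = 0 := by
        have : Complex.I * π * w / 4 = Complex.I * ((π * w / 4 : ℝ) : ℂ) := by
          push_cast
          ring
        rw [this, Complex.re_mul_ofReal]
        simp
      rw [Complex.sub_re, Complex.add_re, a1, a2]
      ring
    rw [e1]
    exact hv'
  · refine mul_ne_zero hK0n ?_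
    unfold cv
    simp only [zero_add, range_one, sum_singleton, Nat.sub_zero, pow_zero, Nat.factorial_zero,
      Nat.cast_one, div_one, mul_one]
    exact hy0
  · intro K
    obtain ⟨C, hC⟩ := hprod K
    refine ⟨‖K0‖ * C, ?_⟩
    filter_upwards [hC, eventually_ge_atTop 2] with N hN hN2
    have hN0 : (N : ℂ) ≠ 0 := by
      have : N ≠ 0 := by omega
      exact_mod_cast this
    have hNr : (0 : ℝ) < N := by
      have : 0 < N := by omega
      exact_mod_cast this
    have hsq : ((Real.sqrt N : ℝ) : ℂ) ≠ 0 := by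
      have : Real.sqrt N ≠ 0 := (Real.sqrt_pos.2 hNr).ne'
      exact_mod_cast this
    have hsq2 : ((Real.sqrt N : ℝ) : ℂ) ^ 2 = N := by
      rw [← Complex.ofReal_pow, Real.sq_sqrt hNr.le]
      simp
    have hb := hN () (Set.mem_univ _)
    -- the identity
    have key : jt t N (vN N) / (((Real.sqrt N) ^ 3 : ℝ) *
        Complex.exp (N * (v' + Complex.I * π - Complex.I * π * w / 4)))
        = K0 * ((N : ℂ) ^ (2 * n) * (Real.sqrt N : ℂ) * (-1) ^ (N * (n + 1)) *
          Complex.exp (-(N * v')) * JT t N * Complex.exp (c / N)) := by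
      have hex : Complex.exp (N * (v' + Complex.I * π - Complex.I * π * w / 4))
          = Complex.exp (N * v') * (-1) ^ N * Complex.exp (N * (-(Complex.I * π * w / 4))) := by
        have e1 : (-1 : ℂ) ^ N = Complex.exp (N * (Complex.I * π)) := by
          rw [← Complex.exp_pi_mul_I, ← Complex.exp_nat_mul]
          congr 1
          ring
        rw [e1, ← Complex.exp_add, ← Complex.exp_add]
        congr 1
        ring
      have hcube : (((Real.sqrt N) ^ 3 : ℝ) : ℂ) = (N : ℂ) * (Real.sqrt N : ℂ) := by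
        push_cast
        rw [pow_succ, hsq2]
      have hexp0 := Complex.exp_ne_zero (N * v')
      have hexp1 := Complex.exp_ne_zero (N * (-(Complex.I * π * w / 4)))
      have hm1 : ((-1 : ℂ)) ^ N ≠ 0 := pow_ne_zero _ (by norm_num)
      have hneg : Complex.exp (-(N * v')) = (Complex.exp (N * v'))⁻¹ := Complex.exp_neg _
      have hsgn : (-1 : ℂ) ^ ((N - 1) * n) = (-1) ^ n * (-1) ^ N * (-1) ^ (N * (n + 1)) := by
        obtain ⟨N', rfl⟩ : ∃ N', N = N' + 1 := ⟨N - 1, by omega⟩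
        rw [Nat.add_sub_cancel, ← pow_add, ← pow_add]
        have e2 : n + (N' + 1) + (N' + 1) * (n + 1) = N' * n + 2 * (n + N' + 1) := by ring
        rw [e2, pow_add, pow_mul (-1 : ℂ) 2]
        norm_num
      have hpow : (Complex.I * (N : ℂ) ^ 2 / (2 * π)) ^ (n + 1)
          = (Complex.I / (2 * π)) ^ (n + 1) * ((N : ℂ) ^ (2 * n) * (N : ℂ) ^ 2) := by
        rw [show Complex.I * (N : ℂ) ^ 2 / (2 * π) = Complex.I / (2 * π) * (N : ℂ) ^ 2 by ring,
          mul_pow, ← pow_mul, ← pow_add]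
        congr 2
      rw [hrtx t N hN2, hex, hcube, kp_zpow N _ (by omega), hneg, ← hw, ← hn, ← hc, hsgn, hpow, hK0]
      have hm2 : ((-1 : ℂ)) ^ N * (-1) ^ N = 1 := by
        rw [← mul_pow]
        norm_num
      rw [div_eq_iff (mul_ne_zero (mul_ne_zero hN0 hsq) (mul_ne_zero (mul_ne_zero hexp0 hm1) hexp1))]
      have hinv : (Complex.exp (N * v'))⁻¹ * Complex.exp (N * v') = 1 := inv_mul_cancel₀ hexp0
      have hN2' : (N : ℂ) ^ 2 = (N : ℂ) * ((Real.sqrt N : ℝ) : ℂ) ^ 2 := by rw [hsq2]; ring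
      calc _ = (Complex.I / (2 * π)) ^ (n + 1) * (-1) ^ n * (-Complex.I) ^ w * (N : ℂ) ^ (2 * n) *
            (-1) ^ (N * (n + 1)) * JT t N * Complex.exp (c / N) * (-1) ^ N
            * Complex.exp (N * (-(Complex.I * π * w / 4))) * (N : ℂ) ^ 2 := by ring
        _ = (Complex.I / (2 * π)) ^ (n + 1) * (-1) ^ n * (-Complex.I) ^ w * (N : ℂ) ^ (2 * n) *
            (-1) ^ (N * (n + 1)) * JT t N * Complex.exp (c / N) * (-1) ^ N
            * Complex.exp (N * (-(Complex.I * π * w / 4))) * ((N : ℂ) * ((Real.sqrt N : ℝ) : ℂ) ^ 2)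
            * ((Complex.exp (N * v'))⁻¹ * Complex.exp (N * v')) := by rw [hinv, ← hN2', mul_one]
        _ = _ := by ring
    rw [key]
    have e3 : ∑ k ∈ range K, K0 * cv (fun k (_ : Unit) => y' k)
          (fun k _ => c ^ k / (k.factorial : ℂ)) k () / (N : ℂ) ^ k
        = K0 * ∑ k ∈ range K, cv (fun k (_ : Unit) => y' k)
          (fun k _ => c ^ k / (k.factorial : ℂ)) k () / (N : ℂ) ^ k := by
      rw [Finset.mul_sum]
      exact Finset.sum_congr rfl fun k _ => mul_div_assoc _ _ _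
    rw [e3, ← mul_sub, norm_mul, mul_div_assoc]
    exact mul_le_mul_of_nonneg_left hb (norm_nonneg _)

end Pool.Agent.W962.AX
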